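import Mathlib
import Pool.Agent.V11254.BigField
import Pool.Agent.V11254.USets

/-!
# Collection and Global Choice do not imply `ω`-DC in Kelley-Morse class theory with urelements
-/

set_option autoImplicit false

namespace Pool.Agent.Results.MP_0641b4_lc.NotOmegaDC

open Pool.Agent.V11254.BigField Pool.Agent.V11254.USets

/-! ### Class theory with urelements -/

/-- Structures for two-sorted class theory with urelements: first-order objects, classes,
membership between objects, the predicate of being an urelement, membership in classes. -/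
structure Str where
  Ob : Type 1
  Cl : Type 1
  mem : Ob → Ob → Prop
  ur : Ob → Prop
  cmem : Ob → Cl → Prop

/-- Formulas with `n` free object variables and `m` free class variables. -/
inductive Fm : ℕ → ℕ → Type
  | mem {n m : ℕ} (i j : Fin n) : Fm n m
  | eq {n m : ℕ} (i j : Fin n) : Fm n m
  | ur {n m : ℕ} (i : Fin n) : Fm n m
  | cmem {n m : ℕ} (i : Fin n) (j : Fin m) : Fm n m
  | ceq {n m : ℕ} (i j : Fin m) : Fm n m
  | bot {n m : ℕ} : Fm n m
  | imp {n m : ℕ} (φ ψ : Fm n m) : Fm n m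
  | all {n m : ℕ} (φ : Fm (n + 1) m) : Fm n m
  | call {n m : ℕ} (φ : Fm n (m + 1)) : Fm n m

/-- Satisfaction. The quantifier `all` ranges over the objects and `call` over the classes; each
binds the variable with index `0`. -/
def Sat (S : Str) : ∀ {n m : ℕ}, Fm n m → (Fin n → S.Ob) → (Fin m → S.Cl) → Prop
  | _, _, .mem i j, v, _ => S.mem (v i) (v j)
  | _, _, .eq i j, v, _ => v i = v j
  | _, _, .ur i, v, _ => S.ur (v i)
  | _, _, .cmem i j, v, V => S.cmem (v i) (V j)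
  | _, _, .ceq i j, _, V => V i = V j
  | _, _, .bot, _, _ => False
  | _, _, .imp φ ψ, v, V => Sat S φ v V → Sat S ψ v V
  | _, _, .all φ, v, V => ∀ x : S.Ob, Sat S φ (Fin.cons x v) V
  | _, _, .call φ, v, V => ∀ X : S.Cl, Sat S φ v (Fin.cons X V)

namespace Str

variable (S : Str)

/-- `p = {a, b}` -/
def IsUPair (p a b : S.Ob) : Prop := ¬ S.ur p ∧ ∀ z, S.mem z p ↔ z = a ∨ z = b

/-- `p = (a, b) = {{a}, {a, b}}` -/
def IsOPair (p a b : S.Ob) : Prop := ∃ s t, S.IsUPair s a a ∧ S.IsUPair t a b ∧ S.IsUPair p s t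

/-- `R(a, b)` for a class relation `R` -/
def InRel (R : S.Cl) (a b : S.Ob) : Prop := ∃ p, S.IsOPair p a b ∧ S.cmem p R

/-- the class `F` is a function -/
def Functional (F : S.Cl) : Prop := ∀ a b c, S.InRel F a b → S.InRel F a c → b = c

/-- `x = ∅` -/
def IsEmp (x : S.Ob) : Prop := ¬ S.ur x ∧ ∀ z, ¬ S.mem z x

/-- `y = x ∪ {x}` -/
def IsSucc (y x : S.Ob) : Prop := ¬ S.ur y ∧ ∀ z, S.mem z y ↔ S.mem z x ∨ z = x

/-- `w` is a set with `∅ ∈ w` which is closed under `x ↦ x ∪ {x}` -/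
def IsInductive (w : S.Ob) : Prop :=
  ¬ S.ur w ∧ (∃ e, S.IsEmp e ∧ S.mem e w) ∧ ∀ x, S.mem x w → ∃ y, S.IsSucc y x ∧ S.mem y w

/-- `w = ω` is the least inductive set -/
def IsOmega (w : S.Ob) : Prop :=
  S.IsInductive w ∧ ∀ I, S.IsInductive I → ∀ x, S.mem x w → S.mem x I

/-- the set `f` is a function with domain `d` -/
def IsFun (f d : S.Ob) : Prop :=
  ¬ S.ur f ∧ (∀ p, S.mem p f → ∃ a b, S.mem a d ∧ S.IsOPair p a b) ∧
    ∀ a, S.mem a d → ∃ b, (∃ p, S.IsOPair p a b ∧ S.mem p f) ∧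
      ∀ b', (∃ p, S.IsOPair p a b' ∧ S.mem p f) → b' = b

/-- `g = f ↾ n` -/
def IsRestr (g f n : S.Ob) : Prop :=
  ¬ S.ur g ∧ ∀ p, S.mem p g ↔ S.mem p f ∧ ∃ a b, S.mem a n ∧ S.IsOPair p a b

/-- The axioms of `KMU_R`. -/
structure IsKMU : Prop where
  urelements : ∀ a x, S.ur a → ¬ S.mem x a
  extensionality : ∀ x y, ¬ S.ur x → ¬ S.ur y → (∀ z, S.mem z x ↔ S.mem z y) → x = y
  foundation : ∀ x, (∃ y, S.mem y x) → ∃ y, S.mem y x ∧ ∀ z, S.mem z y → ¬ S.mem z x
  pairing : ∀ a b, ∃ p, S.IsUPair p a b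
  union : ∀ x, ¬ S.ur x → ∃ u, ¬ S.ur u ∧ ∀ z, S.mem z u ↔ ∃ y, S.mem y x ∧ S.mem z y
  power : ∀ x, ¬ S.ur x → ∃ p, ¬ S.ur p ∧
    ∀ y, S.mem y p ↔ ¬ S.ur y ∧ ∀ z, S.mem z y → S.mem z x
  infinity : ∃ w, S.IsInductive w
  separation : ∀ x (C : S.Cl), ¬ S.ur x → ∃ y, ¬ S.ur y ∧ ∀ z, S.mem z y ↔ S.mem z x ∧ S.cmem z C
  classExtensionality : ∀ C D : S.Cl, (∀ x, S.cmem x C ↔ S.cmem x D) → C = D
  comprehension : ∀ (n m : ℕ) (φ : Fm (n + 1) m) (v : Fin n → S.Ob) (V : Fin m → S.Cl),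
    ∃ C : S.Cl, ∀ x, S.cmem x C ↔ Sat S φ (Fin.cons x v) V
  replacement : ∀ F : S.Cl, S.Functional F → ∀ x, ¬ S.ur x →
    ∃ y, ¬ S.ur y ∧ ∀ b, S.mem b y ↔ ∃ a, S.mem a x ∧ S.InRel F a b

/-- Collection. -/
def Collection : Prop := ∀ (w : S.Ob) (R : S.Cl), ¬ S.ur w →
  (∀ x, S.mem x w → ∃ y, S.InRel R x y) →
    ∃ v, ¬ S.ur v ∧ ∀ x, S.mem x w → ∃ y, S.mem y v ∧ S.InRel R x y

/-- Global Choice. -/
def GlobalChoice : Prop := ∃ G : S.Cl, S.Functional G ∧
  ∀ x, (∃ y, S.mem y x) → ∃ y, S.mem y x ∧ S.InRel G x y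

/-- `ω`-DC. -/
def OmegaDC : Prop := ∀ (R : S.Cl) (w : S.Ob), S.IsOmega w →
  (∀ n s, S.mem n w → S.IsFun s n → ∃ y, S.InRel R s y) →
    ∃ f, S.IsFun f w ∧ ∀ n, S.mem n w → ∀ g y, S.IsRestr g f n →
      (∃ p, S.IsOPair p n y ∧ S.mem p f) → S.InRel R g y

end Str

/-! ### The model -/

/-- The urelements: a linear order. -/
abbrev K : Type 1 := F

theorem els_small (x : U K) : Small.{0} (els x) := by
  rcases cases x with ⟨a, rfl⟩ | ⟨ι, f, rfl⟩
  · have : els (atom a : U K) = ∅ := Set.eq_empty_of_forall_notMem fun y => els_atom a y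
    rw [this]; infer_instance
  · have : els (mk f) = Set.range f := by
      ext y; rw [mem_els_mk]; rfl
    rw [this]; infer_instance

/-- Objects: urelements and hereditarily small sets with well-ordered kernel. -/
def Ob : Type 1 := {x : U K // (ker x).IsWF}

/-- the action of the automorphisms of `K` -/
noncomputable def act (π : K ≃o K) (x : Ob) : Ob := ⟨map π x.1, by rw [ker_map]; exact isWF_image x.2 π⟩

theorem act_act (π σ : K ≃o K) (x : Ob) : act σ (act π x) = act (π.trans σ) x :=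
  Subtype.ext (map_map _ _ _)

theorem act_id (x : Ob) : act (OrderIso.refl K) x = x := Subtype.ext (map_id x.1)

theorem act_symm (π : K ≃o K) (x : Ob) : act π (act π.symm x) = x := by
  rw [act_act, show π.symm.trans π = OrderIso.refl K from OrderIso.symm_trans_self π, act_id]

theorem symm_act (π : K ≃o K) (x : Ob) : act π.symm (act π x) = x := by
  rw [act_act, show π.trans π.symm = OrderIso.refl K from OrderIso.self_trans_symm π, act_id]

theorem act_fix (π : K ≃o K) (x : Ob) (h : ∀ a ∈ ker x.1, π a = a) : act π x = x :=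
  Subtype.ext (map_fix h)

/-- invariance of a class of objects under the automorphisms fixing `E` -/
def Inv (E : Set K) (C : Set Ob) : Prop :=
  ∀ π : K ≃o K, (∀ e ∈ E, π e = e) → ∀ x, act π x ∈ C ↔ x ∈ C

/-- Classes: sets of objects invariant under all automorphisms fixing some small well-ordered
set of urelements. -/
def Cl : Type 1 := {C : Set Ob // ∃ E : Set K, Small.{0} E ∧ E.IsWF ∧ Inv E C}

/-- The model. -/
abbrev M : Str := ⟨Ob, Cl, fun x y => x.1 ∈ els y.1, fun x => ∃ a, x.1 = atom a, fun x C => x ∈ C.1⟩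

theorem mem_act (π : K ≃o K) (x y : Ob) : M.mem (act π x) (act π y) ↔ M.mem x y :=
  mem_els_map π.toEquiv

theorem mem_act' (π : K ≃o K) (x y : Ob) : M.mem x (act π y) ↔ M.mem (act π.symm x) y := by
  conv_lhs => rw [← act_symm π x]
  exact mem_act π _ _

theorem ur_act (π : K ≃o K) (x : Ob) : M.ur (act π x) ↔ M.ur x := by
  constructor
  · rintro ⟨a, ha⟩
    rcases cases x.1 with ⟨b, hb⟩ | ⟨ι, f, hf⟩
    · exact ⟨b, hb⟩
    · exfalso
      have : map π x.1 = atom a := ha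
      rw [hf, map_mk] at this
      exact atom_ne_mk _ _ this.symm
  · rintro ⟨a, ha⟩
    exact ⟨π a, by show map π x.1 = _; rw [ha, map_atom]⟩

/-- action on classes -/
noncomputable def actC (π : K ≃o K) (C : Cl) : Cl := ⟨{x | act π.symm x ∈ C.1}, by
  obtain ⟨E, h1, h2, h3⟩ := C.2
  refine ⟨π '' E, inferInstance, isWF_image h2 π, fun σ hσ x => ?_⟩
  have h4 := h3 ((π.trans σ).trans π.symm) (fun e he => by
    show π.symm (σ (π e)) = e
    rw [hσ (π e) ⟨e, he, rfl⟩, OrderIso.symm_apply_apply]) (act π.symm x)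
  have e1 : act ((π.trans σ).trans π.symm) (act π.symm x) = act π.symm (act σ x) := by
    rw [act_act, act_act]
    congr 1
    ext a
    simp
  rw [e1] at h4
  exact h4⟩

theorem cmem_act (π : K ≃o K) (x : Ob) (C : Cl) : M.cmem (act π x) (actC π C) ↔ M.cmem x C := by
  show act π.symm (act π x) ∈ C.1 ↔ x ∈ C.1
  rw [symm_act]

theorem actC_symm (π : K ≃o K) (C : Cl) : actC π (actC π.symm C) = C := by
  apply Subtype.ext
  ext x
  show act π.symm.symm (act π.symm x) ∈ C.1 ↔ x ∈ C.1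
  rw [OrderIso.symm_symm, act_symm]

theorem actC_inj (π : K ≃o K) {C D : Cl} (h : actC π C = actC π D) : C = D := by
  apply Subtype.ext
  ext x
  have := congrArg (fun C : Cl => act π x ∈ C.1) h
  simp only [eq_iff_iff] at this
  exact (cmem_act π x C).symm.trans (this.trans (cmem_act π x D))

theorem act_inj (π : K ≃o K) {x y : Ob} (h : act π x = act π y) : x = y := by
  rw [← symm_act π x, h, symm_act]

theorem actC_fix (π : K ≃o K) (C : Cl) {E : Set K} (hE : Inv E C.1) (h : ∀ e ∈ E, π e = e) :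
    actC π C = C := by
  apply Subtype.ext
  ext x
  exact hE π.symm (fun e he => by rw [OrderIso.symm_apply_eq, h e he]) x

theorem cons_act {α β : Type 1} (f : α → β) {n : ℕ} (x : α) (v : Fin n → α) :
    (fun i => f ((Fin.cons x v : Fin (n + 1) → α) i)) = Fin.cons (f x) fun i => f (v i) := by
  funext i
  refine Fin.cases ?_ ?_ i
  · rfl
  · intro i; rfl

theorem sat_act (π : K ≃o K) : ∀ {n m : ℕ} (φ : Fm n m) (v : Fin n → Ob) (V : Fin m → Cl),
    Sat M φ (fun i => act π (v i)) (fun j => actC π (V j)) ↔ Sat M φ v V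
  | _, _, .mem i j, v, _ => mem_act π (v i) (v j)
  | _, _, .eq i j, v, _ => ⟨fun h => act_inj π h, fun h => congrArg (act π) h⟩
  | _, _, .ur i, v, _ => ur_act π (v i)
  | _, _, .cmem i j, v, V => cmem_act π (v i) (V j)
  | _, _, .ceq i j, _, V => ⟨fun h => actC_inj π h, fun h => congrArg (actC π) h⟩
  | _, _, .bot, _, _ => Iff.rfl
  | _, _, .imp φ ψ, v, V => by
    have h1 := sat_act π φ v V
    have h2 := sat_act π ψ v V
    exact ⟨fun h h3 => h2.1 (h (h1.2 h3)), fun h h3 => h2.2 (h (h1.1 h3))⟩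
  | _, _, .all φ, v, V => by
    constructor
    · intro h x
      have := h (act π x)
      rw [← cons_act (act π) x v] at this
      exact (sat_act π φ _ V).1 this
    · intro h x
      have := (sat_act π φ _ V).2 (h (act π.symm x))
      rw [cons_act (act π), act_symm] at this
      exact this
  | _, _, .call φ, v, V => by
    constructor
    · intro h X
      have := h (actC π X)
      rw [← cons_act (actC π) X V] at this
      exact (sat_act π φ v _).1 this
    · intro h X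
      have := (sat_act π φ v _).2 (h (actC π.symm X))
      rw [cons_act (actC π), actC_symm] at this
      exact this

theorem comprehension (n m : ℕ) (φ : Fm (n + 1) m) (v : Fin n → Ob) (V : Fin m → Cl) :
    ∃ C : Cl, ∀ x, M.cmem x C ↔ Sat M φ (Fin.cons x v) V := by
  choose E h1 h2 h3 using fun j => (V j).2
  let E' : Set K := (⋃ i ∈ (Finset.univ : Finset (Fin n)), ker (v i).1) ∪
    ⋃ j ∈ (Finset.univ : Finset (Fin m)), E j
  have hs : Small.{0} E' := by
    have := fun i => ker_small (v i).1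
    have : Small.{0} (⋃ i ∈ (Finset.univ : Finset (Fin n)), ker (v i).1 : Set K) := by
      simp only [Finset.mem_univ, Set.iUnion_true]
      exact small_iUnion _
    have : Small.{0} (⋃ j ∈ (Finset.univ : Finset (Fin m)), E j : Set K) := by
      simp only [Finset.mem_univ, Set.iUnion_true]
      exact small_iUnion _
    exact small_union _ _
  have hw : E'.IsWF := by
    refine Set.IsWF.union ?_ ?_
    · rw [Finset.isWF_bUnion]
      exact fun i _ => (v i).2
    · rw [Finset.isWF_bUnion]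
      exact fun i _ => h2 i
  refine ⟨⟨{x | Sat M φ (Fin.cons x v) V}, E', hs, hw, fun π hπ x => ?_⟩, fun x => Iff.rfl⟩
  have e1 : ∀ i, act π (v i) = v i := fun i => act_fix π _ fun a ha => hπ a
    (Or.inl (Set.mem_biUnion (Finset.mem_univ i) ha))
  have e2 : ∀ j, actC π (V j) = V j := fun j => actC_fix π _ (h3 j) fun e he => hπ e
    (Or.inr (Set.mem_biUnion (Finset.mem_univ j) he))
  have := sat_act π φ (Fin.cons x v) V
  rw [cons_act (act π)] at this
  simp only [e1, e2] at this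
  exact this

/-! ### Sets of the model -/

/-- elements of an object -/
def elsO (x : Ob) : Set Ob := {y | y.1 ∈ els x.1}

theorem elsO_small (x : Ob) : Small.{0} (elsO x) := by
  have := els_small x.1
  refine small_of_injective (β := els x.1) (f := fun y : elsO x => (⟨y.1.1, y.2⟩ : els x.1)) ?_
  intro y z h
  exact Subtype.ext (Subtype.ext (congrArg (fun w : els x.1 => w.1) h))

/-- a small set of objects with kernels in one well-ordered set is a set of the model -/
theorem exists_set (T : Set Ob) (hT : Small.{0} T) (W : Set K) (hW : W.IsWF)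
    (h : ∀ y ∈ T, ker y.1 ⊆ W) : ∃ x : Ob, ¬ M.ur x ∧ (∀ z, M.mem z x ↔ z ∈ T) ∧ ker x.1 ⊆ W := by
  let f : Shrink.{0} T → U K := fun i => (((equivShrink T).symm i : T) : Ob).1
  have hk : ker (mk f) ⊆ W := by
    rw [ker_mk]
    exact Set.iUnion_subset fun i => h _ ((equivShrink T).symm i).2
  refine ⟨⟨mk f, hW.mono hk⟩, ?_, ?_, hk⟩
  · rintro ⟨a, ha⟩
    exact atom_ne_mk _ _ ha.symm
  · intro z
    show z.1 ∈ els (mk f) ↔ z ∈ T
    rw [mem_els_mk]
    constructor
    · rintro ⟨i, hi⟩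
      have : (((equivShrink T).symm i : T) : Ob) = z := Subtype.ext hi
      rw [← this]
      exact ((equivShrink T).symm i).2
    · intro hz
      refine ⟨equivShrink T ⟨z, hz⟩, ?_⟩
      simp [f]

theorem ker_mem {x y : Ob} (h : M.mem y x) : ker y.1 ⊆ ker x.1 := ker_sub h

theorem mem_lift {x : Ob} {y : U K} (h : y ∈ els x.1) : ∃ z : Ob, z.1 = y ∧ M.mem z x :=
  ⟨⟨y, x.2.mono (ker_sub h)⟩, rfl, h⟩

theorem extensionality (x y : Ob) (hx : ¬ M.ur x) (hy : ¬ M.ur y)
    (h : ∀ z, M.mem z x ↔ M.mem z y) : x = y := by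
  apply Subtype.ext
  rcases cases x.1 with ⟨a, ha⟩ | ⟨ι, f, hf⟩
  · exact absurd ⟨a, ha⟩ hx
  rcases cases y.1 with ⟨a, ha⟩ | ⟨κ, g, hg⟩
  · exact absurd ⟨a, ha⟩ hy
  rw [hf, hg]
  refine els_ext f g fun z => ?_
  rw [← hf, ← hg]
  constructor
  · intro hz
    obtain ⟨w, rfl, hw⟩ := mem_lift hz
    exact (h w).1 hw
  · intro hz
    obtain ⟨w, rfl, hw⟩ := mem_lift hz
    exact (h w).2 hw

theorem foundation (x : Ob) (h : ∃ y, M.mem y x) :
    ∃ y, M.mem y x ∧ ∀ z, M.mem z y → ¬ M.mem z x := by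
  obtain ⟨y, hy⟩ := h
  have key : ∀ y : U K, y ∈ els x.1 → ∃ y : Ob, M.mem y x ∧ ∀ z, M.mem z y → ¬ M.mem z x := by
    refine ind ?_ ?_
    · intro a ha
      obtain ⟨w, hw, hw'⟩ := mem_lift ha
      refine ⟨w, hw', fun z hz => ?_⟩
      have : z.1 ∈ els w.1 := hz
      rw [hw] at this
      exact absurd this (els_atom _ _)
    · intro ι f ih hf
      by_cases h : ∃ i, f i ∈ els x.1
      · obtain ⟨i, hi⟩ := h
        exact ih i hi
      · obtain ⟨w, hw, hw'⟩ := mem_lift hf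
        refine ⟨w, hw', fun z hz hzx => ?_⟩
        have : z.1 ∈ els w.1 := hz
        rw [hw, mem_els_mk] at this
        obtain ⟨i, hi⟩ := this
        exact h ⟨i, hi ▸ hzx⟩
  exact key y.1 hy

theorem pairing (a b : Ob) : ∃ p, M.IsUPair p a b := by
  obtain ⟨x, h1, h2, _⟩ := exists_set {a, b} inferInstance (ker a.1 ∪ ker b.1) (a.2.union b.2) (by
    rintro y (rfl | rfl)
    · exact Set.subset_union_left
    · exact Set.subset_union_right)
  exact ⟨x, h1, fun z => (h2 z).trans Iff.rfl⟩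

theorem union (x : Ob) : ∃ u, ¬ M.ur u ∧ ∀ z, M.mem z u ↔ ∃ y, M.mem y x ∧ M.mem z y := by
  have h1 := elsO_small x
  have h2 := fun y : elsO x => elsO_small y.1
  obtain ⟨u, h3, h4, _⟩ := exists_set (⋃ y : elsO x, elsO y.1) (small_iUnion _) (ker x.1) x.2 (by
    intro z hz
    obtain ⟨y, hy⟩ := Set.mem_iUnion.1 hz
    exact (ker_mem (x := y.1) hy).trans (ker_mem y.2))
  refine ⟨u, h3, fun z => (h4 z).trans ?_⟩
  rw [Set.mem_iUnion]
  exact ⟨fun ⟨y, hy⟩ => ⟨y.1, y.2, hy⟩, fun ⟨y, hy, hz⟩ => ⟨⟨y, hy⟩, hz⟩⟩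

theorem ker_of_elements {x : Ob} (hx : ¬ M.ur x) {a : K} (ha : a ∈ ker x.1) :
    ∃ y, M.mem y x ∧ a ∈ ker y.1 := by
  rcases cases x.1 with ⟨b, hb⟩ | ⟨ι, f, hf⟩
  · exact absurd ⟨b, hb⟩ hx
  · rw [hf, ker_mk] at ha
    obtain ⟨i, hi⟩ := Set.mem_iUnion.1 ha
    obtain ⟨w, hw, hw'⟩ := mem_lift (x := x) (y := f i) (by rw [hf, mem_els_mk]; exact ⟨i, rfl⟩)
    exact ⟨w, hw', by rw [hw]; exact hi⟩

theorem power (x : Ob) : ∃ p, ¬ M.ur p ∧
    ∀ y, M.mem y p ↔ ¬ M.ur y ∧ ∀ z, M.mem z y → M.mem z x := by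
  have h1 := elsO_small x
  let T : Set Ob := {y | ¬ M.ur y ∧ ∀ z, M.mem z y → M.mem z x}
  have hT : Small.{0} T := by
    refine small_of_injective (β := Set (elsO x)) (f := fun y : T => {z | M.mem z.1 y.1}) ?_
    intro y y' h
    apply Subtype.ext
    refine extensionality _ _ y.2.1 y'.2.1 fun z => ?_
    constructor
    · intro hz
      have h5 : (⟨z, y.2.2 z hz⟩ : elsO x) ∈ {z : elsO x | M.mem z.1 y.1} := hz
      have h : {z : elsO x | M.mem z.1 y.1} = {z : elsO x | M.mem z.1 y'.1} := h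
      rw [h] at h5
      exact h5
    · intro hz
      have h5 : (⟨z, y'.2.2 z hz⟩ : elsO x) ∈ {z : elsO x | M.mem z.1 y'.1} := hz
      have h : {z : elsO x | M.mem z.1 y.1} = {z : elsO x | M.mem z.1 y'.1} := h
      rw [← h] at h5
      exact h5
  obtain ⟨p, h2, h3, _⟩ := exists_set T hT (ker x.1) x.2 (by
    intro y hy a ha
    obtain ⟨z, hz, hz'⟩ := ker_of_elements hy.1 ha
    exact ker_mem (hy.2 z hz) hz')
  exact ⟨p, h2, h3⟩

theorem separation (x : Ob) (C : Set Ob) : ∃ y, ¬ M.ur y ∧ ∀ z, M.mem z y ↔ M.mem z x ∧ z ∈ C := by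
  have h1 := elsO_small x
  obtain ⟨y, h2, h3, _⟩ := exists_set (elsO x ∩ C) (small_subset Set.inter_subset_left) (ker x.1) x.2
    (fun z hz => ker_mem hz.1)
  exact ⟨y, h2, h3⟩

/-! ### Natural numbers -/

theorem exists_empty : ∃ x : Ob, M.IsEmp x ∧ ker x.1 = ∅ := by
  obtain ⟨x, h1, h2, h3⟩ := exists_set ∅ inferInstance ∅ Set.isWF_empty (fun y hy => absurd hy (Set.notMem_empty y))
  exact ⟨x, ⟨h1, fun z hz => (h2 z).1 hz⟩, Set.subset_eq_empty h3 rfl⟩

theorem exists_succ (x : Ob) : ∃ y : Ob, M.IsSucc y x ∧ ker y.1 ⊆ ker x.1 := by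
  have h1 := elsO_small x
  obtain ⟨y, h2, h3, h4⟩ := exists_set (elsO x ∪ {x}) (small_union _ _) (ker x.1) x.2 (by
    rintro z (hz | rfl)
    · exact ker_mem hz
    · exact subset_rfl)
  exact ⟨y, ⟨h2, h3⟩, h4⟩

/-- the natural numbers of the model -/
noncomputable def nat : ℕ → Ob
  | 0 => exists_empty.choose
  | n + 1 => (exists_succ (nat n)).choose

theorem nat_zero : M.IsEmp (nat 0) := exists_empty.choose_spec.1
theorem nat_succ (n : ℕ) : M.IsSucc (nat (n + 1)) (nat n) := (exists_succ (nat n)).choose_spec.1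
theorem nat_ker (n : ℕ) : ker (nat n).1 = ∅ := by
  induction n with
  | zero => exact exists_empty.choose_spec.2
  | succ n ih =>
    have := (exists_succ (nat n)).choose_spec.2
    exact Set.subset_eq_empty this ih

theorem emp_unique {x : Ob} (h : M.IsEmp x) : x = nat 0 :=
  extensionality _ _ h.1 nat_zero.1 fun z =>
    ⟨fun hz => absurd hz (h.2 z), fun hz => absurd hz (nat_zero.2 z)⟩

theorem succ_unique {x y z : Ob} (h : M.IsSucc y x) (h' : M.IsSucc z x) : y = z :=
  extensionality _ _ h.1 h'.1 fun w => (h.2 w).trans (h'.2 w).symm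

theorem nat_mem_inductive {w : Ob} (h : M.IsInductive w) (n : ℕ) : M.mem (nat n) w := by
  induction n with
  | zero =>
    obtain ⟨e, he, he'⟩ := h.2.1
    rw [← emp_unique he]; exact he'
  | succ n ih =>
    obtain ⟨y, hy, hy'⟩ := h.2.2 _ ih
    rw [succ_unique (nat_succ n) hy]; exact hy'

theorem nat_mem {m n : ℕ} (h : m < n) : M.mem (nat m) (nat n) := by
  induction n with
  | zero => omega
  | succ n ih =>
    rw [(nat_succ n).2]
    rcases Nat.lt_or_ge m n with h1 | h1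
    · exact Or.inl (ih h1)
    · right; rw [show m = n by omega]

theorem exists_omega : ∃ w : Ob, M.IsOmega w := by
  obtain ⟨w, h1, h2, _⟩ := exists_set (Set.range nat) inferInstance ∅ Set.isWF_empty (by
    rintro _ ⟨n, rfl⟩
    rw [nat_ker])
  refine ⟨w, ⟨h1, ⟨nat 0, nat_zero, (h2 _).2 ⟨0, rfl⟩⟩, ?_⟩, ?_⟩
  · intro x hx
    obtain ⟨n, rfl⟩ := (h2 x).1 hx
    exact ⟨nat (n + 1), nat_succ n, (h2 _).2 ⟨n + 1, rfl⟩⟩
  · intro I hI x hx
    obtain ⟨n, rfl⟩ := (h2 x).1 hx
    exact nat_mem_inductive hI n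

/-! ### Pairs -/

theorem opair_exists (a b : Ob) : ∃ p, M.IsOPair p a b := by
  obtain ⟨s, hs⟩ := pairing a a
  obtain ⟨t, ht⟩ := pairing a b
  obtain ⟨p, hp⟩ := pairing s t
  exact ⟨p, s, t, hs, ht, hp⟩

theorem opair_inj {p a b a' b' : Ob} (h : M.IsOPair p a b) (h' : M.IsOPair p a' b') :
    a = a' ∧ b = b' := by
  obtain ⟨s, t, hs, ht, hp⟩ := h
  obtain ⟨s', t', hs', ht', hp'⟩ := h'
  have sp : M.mem s p := (hp.2 s).2 (Or.inl rfl)
  have tp : M.mem t p := (hp.2 t).2 (Or.inr rfl)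
  have s'p : M.mem s' p := (hp'.2 s').2 (Or.inl rfl)
  have t'p : M.mem t' p := (hp'.2 t').2 (Or.inr rfl)
  have hs2 : ∀ z, M.mem z s ↔ z = a := fun z => (hs.2 z).trans (or_self_iff)
  have hs2' : ∀ z, M.mem z s' ↔ z = a' := fun z => (hs'.2 z).trans (or_self_iff)
  have aa : a = a' := by
    have h1 : M.mem a' s := by
      rcases (hp'.2 s).1 sp with h | h
      · rw [h, hs2']
      · rw [h, ht'.2]; exact Or.inl rfl
    exact ((hs2 a').1 h1).symm
  subst aa
  refine ⟨rfl, ?_⟩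
  have h1 : b = a ∨ b = b' := by
    have hb : M.mem b t := (ht.2 b).2 (Or.inr rfl)
    rcases (hp'.2 t).1 tp with h | h
    · rw [h, hs2'] at hb; exact Or.inl hb
    · rw [h, ht'.2] at hb; exact hb
  have h2 : b' = a ∨ b' = b := by
    have hb : M.mem b' t' := (ht'.2 b').2 (Or.inr rfl)
    rcases (hp.2 t').1 t'p with h | h
    · rw [h, hs2] at hb; exact Or.inl hb
    · rw [h, ht.2] at hb; exact hb
  rcases h1 with h1 | h1
  · rcases h2 with h2 | h2
    · rw [h1, h2]
    · exact h2.symm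
  · exact h1

theorem upair_act (π : K ≃o K) {p a b : Ob} (h : M.IsUPair p a b) :
    M.IsUPair (act π p) (act π a) (act π b) := by
  refine ⟨fun h' => h.1 ((ur_act π p).1 h'), fun z => ?_⟩
  rw [mem_act', h.2]
  constructor
  · rintro (h | h)
    · left; rw [← h, act_symm]
    · right; rw [← h, act_symm]
  · rintro (h | h)
    · left; rw [h, symm_act]
    · right; rw [h, symm_act]

theorem opair_act (π : K ≃o K) {p a b : Ob} (h : M.IsOPair p a b) :
    M.IsOPair (act π p) (act π a) (act π b) := by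
  obtain ⟨s, t, hs, ht, hp⟩ := h
  exact ⟨act π s, act π t, upair_act π hs, upair_act π ht, upair_act π hp⟩

theorem opair_ker {p a b : Ob} (h : M.IsOPair p a b) : ker a.1 ⊆ ker p.1 ∧ ker b.1 ⊆ ker p.1 := by
  obtain ⟨s, t, hs, ht, hp⟩ := h
  have tp : M.mem t p := (hp.2 t).2 (Or.inr rfl)
  exact ⟨(ker_mem ((ht.2 a).2 (Or.inl rfl))).trans (ker_mem tp),
    (ker_mem ((ht.2 b).2 (Or.inr rfl))).trans (ker_mem tp)⟩

theorem inRel_act {E : Set K} {R : Cl} (hR : Inv E R.1) (π : K ≃o K) (hπ : ∀ e ∈ E, π e = e)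
    {a b : Ob} (h : M.InRel R a b) : M.InRel R (act π a) (act π b) := by
  obtain ⟨p, hp, hp'⟩ := h
  exact ⟨act π p, opair_act π hp, (hR π hπ p).2 hp'⟩

/-! ### Rigidity -/

/-- an automorphism preserving a well-ordered set fixes it pointwise -/
theorem fix_of_image {W : Set K} (hW : W.IsWF) (π : K ≃o K) (h : π '' W = W) : ∀ a ∈ W, π a = a := by
  by_contra hne
  push Not at hne
  have hwf : {a | a ∈ W ∧ π a ≠ a}.IsWF := hW.mono fun a ha => ha.1
  have hn : {a | a ∈ W ∧ π a ≠ a}.Nonempty := hne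
  obtain ⟨h1, h2⟩ := hwf.min_mem hn
  set a := hwf.min hn
  have hmin : ∀ b ∈ W, b < a → π b = b := by
    intro b hb hlt
    by_contra h3
    exact absurd (hwf.min_le hn ⟨hb, h3⟩) (not_le.2 hlt)
  rcases lt_or_gt_of_ne h2 with h3 | h3
  · have h4 : π a ∈ W := by rw [← h]; exact ⟨a, h1, rfl⟩
    exact h2 (π.injective (hmin _ h4 h3))
  · obtain ⟨b, hb, hb'⟩ : a ∈ π '' W := by rw [h]; exact h1
    have h5 : b < a := by
      rw [← hb'] at h3
      have := π.lt_iff_lt.1 h3
      rwa [hb'] at this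
    have h6 := hmin b hb h5
    rw [hb'] at h6
    exact absurd h6.symm h5.ne

theorem stab {π : K ≃o K} {x : Ob} (h : act π x = x) : ∀ a ∈ ker x.1, π a = a := by
  refine fix_of_image x.2 π ?_
  have : ker (map π x.1) = π '' ker x.1 := ker_map _ _
  rw [← this]
  exact congrArg (fun y : Ob => ker y.1) h

theorem ker_of_fixed {E : Set K} (hE : E.IsWF) [Small.{0} E] {x : Ob}
    (h : ∀ π : K ≃o K, (∀ e ∈ E, π e = e) → act π x = x) : ker x.1 ⊆ E := by
  intro a ha
  by_contra hne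
  obtain ⟨π, h1, h2⟩ := move F_unb E hE a hne
  exact h2 (stab (h π h1) a ha)

theorem replacement (G : Cl) (hG : M.Functional G) (x : Ob) :
    ∃ y, ¬ M.ur y ∧ ∀ b, M.mem b y ↔ ∃ a, M.mem a x ∧ M.InRel G a b := by
  obtain ⟨E, hE1, hE2, hE3⟩ := G.2
  have h1 := elsO_small x
  have h2 := ker_small x.1
  let T : Set Ob := {b | ∃ a, M.mem a x ∧ M.InRel G a b}
  have hT : Small.{0} T := by
    let S : Set (elsO x) := {a | ∃ b, M.InRel G a.1 b}
    let f : S → Ob := fun a => a.2.choose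
    have : T ⊆ Set.range f := by
      rintro b ⟨a, ha, hab⟩
      refine ⟨⟨⟨a, ha⟩, b, hab⟩, ?_⟩
      exact hG a _ _ (Exists.choose_spec (⟨b, hab⟩ : ∃ b, M.InRel G a b)) hab
    exact small_subset this
  have hw : (E ∪ ker x.1).IsWF := hE2.union x.2
  have hs : Small.{0} (E ∪ ker x.1 : Set K) := small_union _ _
  obtain ⟨y, h3, h4, _⟩ := exists_set T hT (E ∪ ker x.1) hw (by
    rintro b ⟨a, ha, hab⟩
    refine ker_of_fixed hw fun π hπ => ?_
    have h5 : act π a = a := act_fix π a fun c hc => hπ c (Or.inr (ker_mem ha hc))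
    have h6 := inRel_act hE3 π (fun e he => hπ e (Or.inl he)) hab
    rw [h5] at h6
    exact hG a _ _ h6 hab)
  exact ⟨y, h3, h4⟩

theorem collection : M.Collection := by
  intro w R _ h
  obtain ⟨E, hE1, hE2, hE3⟩ := R.2
  have h1 := elsO_small w
  have h2 := ker_small w.1
  have hw : (E ∪ ker w.1).IsWF := hE2.union w.2
  have hs : Small.{0} (E ∪ ker w.1 : Set K) := small_union _ _
  let ι := Shrink.{0} (elsO w)
  let x : ι → Ob := fun i => ((equivShrink (elsO w)).symm i).1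
  have hx : ∀ i, M.mem (x i) w := fun i => ((equivShrink (elsO w)).symm i).2
  choose y hy using fun i => h (x i) (hx i)
  obtain ⟨π, hπ, hπ'⟩ := spread F_unb (E ∪ ker w.1) hw ι (fun i => ker (y i).1) (fun i => (y i).2)
    (fun i => ker_small (y i).1)
  obtain ⟨v, h3, h4, _⟩ := exists_set (Set.range fun i => act (π i) (y i)) inferInstance _ hπ' (by
    rintro _ ⟨i, rfl⟩
    have : ker (act (π i) (y i)).1 = π i '' ker (y i).1 := ker_map _ _
    rw [this]
    exact (Set.subset_iUnion (fun i => π i '' ker (y i).1) i).trans Set.subset_union_right)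
  refine ⟨v, h3, fun a ha => ?_⟩
  have hi : x (equivShrink (elsO w) ⟨a, ha⟩) = a := by simp [x]
  set i := equivShrink (elsO w) ⟨a, ha⟩
  refine ⟨act (π i) (y i), (h4 _).2 ⟨i, rfl⟩, ?_⟩
  have h5 := inRel_act hE3 (π i) (fun e he => hπ i e (Or.inl he)) (hy i)
  have h6 : act (π i) (x i) = x i := act_fix _ _ fun c hc =>
    hπ i c (Or.inr (ker_mem (hx i) hc))
  rw [h6, hi] at h5
  exact h5

/-! ### Global Choice -/

/-- orbits -/
def orb (x y : Ob) : Prop := ∃ π : K ≃o K, act π x = y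

instance orbSetoid : Setoid Ob := ⟨orb, fun x => ⟨OrderIso.refl K, act_id x⟩,
  fun {x y} ⟨π, h⟩ => ⟨π.symm, by rw [← h, symm_act]⟩,
  fun {x y z} ⟨π, h⟩ ⟨σ, h'⟩ => ⟨π.trans σ, by rw [← act_act, h, h']⟩⟩

noncomputable def rp (x : Ob) : Ob := (Quotient.mk orbSetoid x).out

theorem rp_orb (x : Ob) : ∃ π : K ≃o K, act π (rp x) = x := Quotient.mk_out (s := orbSetoid) x

theorem rp_act (π : K ≃o K) (x : Ob) : rp (act π x) = rp x := by
  unfold rp
  congr 1
  exact Quotient.sound (s := orbSetoid) ⟨π.symm, symm_act π x⟩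

open Classical in
/-- a choice of elements -/
noncomputable def ch (x : Ob) : Ob := if h : ∃ y, M.mem y x then h.choose else x

theorem ch_mem {x : Ob} (h : ∃ y, M.mem y x) : M.mem (ch x) x := by
  unfold ch
  rw [dif_pos h]
  exact h.choose_spec

theorem ch_unique {r : Ob} (hr : ∃ y, M.mem y r) {π σ : K ≃o K} (h : act π r = act σ r) :
    act π (ch r) = act σ (ch r) := by
  have h1 : act (π.trans σ.symm) r = r := by rw [← act_act, h, symm_act]
  have h2 := stab h1
  have h3 : act (π.trans σ.symm) (ch r) = ch r := act_fix _ _ fun a ha =>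
    h2 a (ker_mem (ch_mem hr) ha)
  rw [← act_act] at h3
  have h4 := congrArg (act σ) h3
  rw [act_symm] at h4
  exact h4

theorem globalChoice : M.GlobalChoice := by
  let G : Set Ob := {p | ∃ (x : Ob) (π : K ≃o K), (∃ y, M.mem y x) ∧ act π (rp x) = x ∧
    M.IsOPair p x (act π (ch (rp x)))}
  have fwd : ∀ (σ : K ≃o K) (p : Ob), p ∈ G → act σ p ∈ G := by
    rintro σ p ⟨x, π, ⟨y, hy⟩, h2, h3⟩
    refine ⟨act σ x, π.trans σ, ⟨act σ y, (mem_act σ y x).2 hy⟩, ?_, ?_⟩
    · rw [rp_act, ← act_act, h2]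
    · rw [rp_act, ← act_act]
      exact opair_act σ h3
  have hG : Inv ∅ G := by
    intro σ _ p
    constructor
    · intro h
      have := fwd σ.symm _ h
      rwa [symm_act] at this
    · exact fwd σ p
  have hne : ∀ {x : Ob} {π : K ≃o K}, (∃ y, M.mem y x) → act π (rp x) = x → ∃ y, M.mem y (rp x) := by
    rintro x π ⟨y, hy⟩ h
    refine ⟨act π.symm y, ?_⟩
    rw [← mem_act π, act_symm, h]
    exact hy
  refine ⟨⟨G, ∅, inferInstance, Set.isWF_empty, hG⟩, ?_, ?_⟩
  · rintro a b c ⟨p, hp, x, π, h1, h2, h3⟩ ⟨q, hq, x', π', h1', h2', h3'⟩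
    obtain ⟨rfl, rfl⟩ := opair_inj hp h3
    obtain ⟨rfl, rfl⟩ := opair_inj hq h3'
    exact ch_unique (hne h1 h2) (h2.trans h2'.symm)
  · intro x hx
    obtain ⟨π, hπ⟩ := rp_orb x
    refine ⟨act π (ch (rp x)), ?_, ?_⟩
    · have h1 := ch_mem (hne hx hπ)
      rw [← mem_act π, hπ] at h1
      exact h1
    · obtain ⟨p, hp⟩ := opair_exists x (act π (ch (rp x)))
      exact ⟨p, hp, x, π, hx, hπ, hp⟩

/-! ### Failure of `ω`-DC -/

theorem not_omegaDC : ¬ M.OmegaDC := by
  intro H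
  obtain ⟨w, hw⟩ := exists_omega
  let R : Set Ob := {p | ∃ (s y : Ob) (a : K), M.IsOPair p s y ∧ y.1 = atom a ∧ ∀ b ∈ ker s.1, a < b}
  have fwd : ∀ (σ : K ≃o K) (p : Ob), p ∈ R → act σ p ∈ R := by
    rintro σ p ⟨s, y, a, h1, h2, h3⟩
    refine ⟨act σ s, act σ y, σ a, opair_act σ h1, ?_, ?_⟩
    · show map σ y.1 = _
      rw [h2, map_atom]
    · intro b hb
      have : ker (act σ s).1 = σ '' ker s.1 := ker_map _ _
      rw [this] at hb
      obtain ⟨c, hc, rfl⟩ := hb
      exact σ.strictMono (h3 c hc)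
  have hR : Inv ∅ R := by
    intro σ _ p
    constructor
    · intro h
      have := fwd σ.symm _ h
      rwa [symm_act] at this
    · exact fwd σ p
  obtain ⟨f, hf, hf'⟩ := H ⟨R, ∅, inferInstance, Set.isWF_empty, hR⟩ w hw (by
    intro n s _ _
    have h1 := ker_small s.1
    obtain ⟨a, ha⟩ := lnb_of F_unb (Shrink.{0} (ker s.1)) (fun i => ((equivShrink (ker s.1)).symm i).1)
    let y : Ob := ⟨atom a, by rw [ker_atom]; exact Set.isWF_singleton⟩
    obtain ⟨p, hp⟩ := opair_exists s y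
    refine ⟨y, p, hp, s, y, a, hp, rfl, fun b hb => ?_⟩
    have := ha (equivShrink (ker s.1) ⟨b, hb⟩)
    simpa using this)
  have hnat := nat_mem_inductive hw.1
  -- the values of `f`
  have key : ∀ n : ℕ, ∃ (y p : Ob) (a : K), M.IsOPair p (nat n) y ∧ M.mem p f ∧ y.1 = atom a ∧
      ∀ m < n, ∀ z q, M.IsOPair q (nat m) z → M.mem q f → ∀ b ∈ ker z.1, a < b := by
    intro n
    obtain ⟨y, ⟨p, hp, hpf⟩, _⟩ := hf.2.2 (nat n) (hnat n)
    obtain ⟨g, hg1, hg2⟩ := separation f {q | ∃ a b, M.mem a (nat n) ∧ M.IsOPair q a b}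
    obtain ⟨q, hq, s, y', a, h1, h2, h3⟩ := hf' (nat n) (hnat n) g y ⟨hg1, hg2⟩ ⟨p, hp, hpf⟩
    obtain ⟨rfl, rfl⟩ := opair_inj hq h1
    refine ⟨y, p, a, hp, hpf, h2, fun m hm z r hr hrf b hb => h3 b ?_⟩
    have h4 : M.mem r g := (hg2 r).2 ⟨hrf, nat m, z, nat_mem hm, hr⟩
    exact ker_mem h4 ((opair_ker hr).2 hb)
  choose y p a h1 h2 h3 h4 using key
  have ha : ∀ n, a n ∈ ker (y n).1 := by
    intro n
    rw [h3 n, ker_atom]; rfl
  have hanti : StrictAnti a := strictAnti_nat_of_succ_lt fun n =>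
    h4 (n + 1) n (Nat.lt_succ_self n) (y n) (p n) (h1 n) (h2 n) _ (ha n)
  refine Set.isWF_iff_no_descending_seq.1 f.2 a hanti fun n => ?_
  exact ker_mem (h2 n) ((opair_ker (h1 n)).2 (ha n))

theorem isKMU : M.IsKMU where
  urelements := by
    rintro a x ⟨c, hc⟩ h
    have : x.1 ∈ els a.1 := h
    rw [hc] at this
    exact els_atom _ _ this
  extensionality := extensionality
  foundation := foundation
  pairing := pairing
  union x _ := union x
  power x _ := power x
  infinity := by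
    obtain ⟨w, hw⟩ := exists_omega
    exact ⟨w, hw.1⟩
  separation x C _ := separation x C.1
  classExtensionality C D h := Subtype.ext (Set.ext h)
  comprehension := comprehension
  replacement F hF x _ := replacement F hF x

/-- **MP_0641b4_lc, Q1, disproved**: there is a model of `KMU_R`, Collection, Global Choice and
the negation of `ω`-DC. -/
theorem result : ∃ S : Str, S.IsKMU ∧ S.Collection ∧ S.GlobalChoice ∧ ¬ S.OmegaDC :=
  ⟨M, isKMU, collection, globalChoice, not_omegaDC⟩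

end Pool.Agent.Results.MP_0641b4_lc.NotOmegaDC
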